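import Pool.Agent.MP_6a4325_al.H62.Spec

/-!
Row MEAS: the lemma of Furstenberg over a locally compact field, by a finitely additive
invariant mean.
-/

set_option autoImplicit false

namespace Pool.Agent.MP_6a4325_al.H29

open Pool.Agent.MP_6a4325_al.H62 Matrix Filter Topology

/-- a finitely additive invariant probability on all subsets -/
structure Mean (G : Type) [Group G] where
  m : Set G → ℝ
  univ : m Set.univ = 1
  empty : m ∅ = 0
  mono : ∀ A B, A ⊆ B → m A ≤ m B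
  add : ∀ A B, m (A ∪ B) + m (A ∩ B) = m A + m B
  inv : ∀ (s : G) (A : Set G), m {g | s * g ∈ A} ≤ m A

open Classical in
/-- the part of a finite set in a set -/
noncomputable def cnt {G : Type} (Φ : Finset G) (A : Set G) : Finset G :=
  Φ.filter (fun g => g ∈ A)

theorem mem_cnt {G : Type} {Φ : Finset G} {A : Set G} {g : G} :
    g ∈ cnt Φ A ↔ g ∈ Φ ∧ g ∈ A := by
  simp [cnt]

theorem exists_mean (G : Type) [Group G] (h : Amen G) : Nonempty (Mean G) := by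
  classical
  have hpos : ∀ i : Finset G × ℕ, (0 : ℝ) < 1 / ((i.2 : ℝ) + 1) := fun i => by positivity
  choose Φ hne hΦ using fun i : Finset G × ℕ => h i.1 _ (hpos i)
  let U : Ultrafilter (Finset G × ℕ) := Ultrafilter.of atTop
  have hU : (U : Filter (Finset G × ℕ)) ≤ atTop := Ultrafilter.of_le _
  let d : Set G → Finset G × ℕ → ℝ := fun A i =>
    ((cnt (Φ i) A).card : ℝ) / (Φ i).card
  have hc : ∀ i, (0 : ℝ) < (Φ i).card := fun i => by exact_mod_cast (hne i).card_pos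
  have hd : ∀ A i, d A i ∈ Set.Icc (0 : ℝ) 1 := fun A i => by
    refine ⟨by positivity, ?_⟩
    rw [div_le_one (hc i)]
    exact_mod_cast Finset.card_le_card fun g hg => (mem_cnt.1 hg).1
  have hlim : ∀ A, ∃ x, Tendsto (d A) U (𝓝 x) := fun A => by
    obtain ⟨x, -, hx⟩ := isCompact_Icc.ultrafilter_le_nhds (U.map (d A))
      (by
        rw [Ultrafilter.coe_map, le_principal_iff, mem_map]
        exact univ_mem' (fun i => hd A i))
    exact ⟨x, hx⟩
  choose m hm using hlim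
  refine ⟨⟨m, ?_, ?_, ?_, ?_, ?_⟩⟩
  · refine tendsto_nhds_unique (hm _) ?_
    have : d Set.univ = fun _ => 1 := by
      funext i
      have e : cnt (Φ i) Set.univ = Φ i := by ext g; simp [mem_cnt]
      simp only [d, e]
      exact div_self (hc i).ne'
    rw [this]
    exact tendsto_const_nhds
  · refine tendsto_nhds_unique (hm _) ?_
    have : d ∅ = fun _ => 0 := by
      funext i
      have e : cnt (Φ i) ∅ = ∅ := by ext g; simp [mem_cnt]
      simp [d, e]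
    rw [this]
    exact tendsto_const_nhds
  · intro A B hAB
    refine le_of_tendsto_of_tendsto' (hm A) (hm B) fun i => ?_
    refine div_le_div_of_nonneg_right ?_ (hc i).le
    exact_mod_cast Finset.card_le_card fun g hg =>
      mem_cnt.2 ⟨(mem_cnt.1 hg).1, hAB (mem_cnt.1 hg).2⟩
  · intro A B
    refine tendsto_nhds_unique ((hm _).add (hm _)) ?_
    have : (fun i => d (A ∪ B) i + d (A ∩ B) i) = fun i => d A i + d B i := by
      funext i
      simp only [d]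
      rw [← add_div, ← add_div]
      have e1 : cnt (Φ i) (A ∪ B) = cnt (Φ i) A ∪ cnt (Φ i) B := by
        ext g; simp only [mem_cnt, Finset.mem_union, Set.mem_union]; tauto
      have e2 : cnt (Φ i) (A ∩ B) = cnt (Φ i) A ∩ cnt (Φ i) B := by
        ext g; simp only [mem_cnt, Finset.mem_inter, Set.mem_inter_iff]; tauto
      rw [e1, e2]
      have h2 : ((cnt (Φ i) A ∪ cnt (Φ i) B).card : ℝ) + ((cnt (Φ i) A ∩ cnt (Φ i) B).card : ℝ) =
          ((cnt (Φ i) A).card : ℝ) + ((cnt (Φ i) B).card : ℝ) := by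
        exact_mod_cast Finset.card_union_add_card_inter (cnt (Φ i) A) (cnt (Φ i) B)
      rw [h2]
    rw [this]
    exact (hm _).add (hm _)
  · intro s A
    have h0 : Tendsto (fun i : Finset G × ℕ => 1 / ((i.2 : ℝ) + 1)) U (𝓝 0) := by
      refine Tendsto.mono_left ?_ hU
      refine tendsto_one_div_add_atTop_nhds_zero_nat.comp ?_
      rw [← prod_atTop_atTop_eq]
      exact tendsto_snd
    have h1 := (hm A).add h0
    rw [add_zero] at h1
    refine le_of_tendsto_of_tendsto (hm _) h1 ?_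
    refine hU ?_
    filter_upwards [mem_atTop (({s} : Finset G), (0 : ℕ))] with i hi
    have hs : s ∈ i.1 := hi.1 (Finset.mem_singleton_self s)
    have h2 := hΦ i s hs
    have e : {x : G | x ∈ Φ i ∧ s * x ∉ Φ i} = ↑(cnt (Φ i) {x | s * x ∉ Φ i}) := by
      ext x; simp [mem_cnt]
    rw [e, Set.ncard_coe_finset] at h2
    have h3 : (cnt (Φ i) {g | s * g ∈ A}).card ≤
        (cnt (Φ i) A).card + (cnt (Φ i) {x | s * x ∉ Φ i}).card := by
      have h4 : cnt (Φ i) {g | s * g ∈ A} ⊆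
          (cnt (Φ i) A).image (fun g => s⁻¹ * g) ∪ cnt (Φ i) {x | s * x ∉ Φ i} := by
        intro g hg
        have hg' := mem_cnt.1 hg
        by_cases hsg : s * g ∈ Φ i
        · refine Finset.mem_union_left _ (Finset.mem_image.2 ⟨s * g, ?_, by simp⟩)
          exact mem_cnt.2 ⟨hsg, hg'.2⟩
        · exact Finset.mem_union_right _ (mem_cnt.2 ⟨hg'.1, hsg⟩)
      refine (Finset.card_le_card h4).trans ((Finset.card_union_le _ _).trans ?_)
      exact Nat.add_le_add_right Finset.card_image_le _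
    have h5 : ((cnt (Φ i) {g | s * g ∈ A}).card : ℝ) ≤
        ((cnt (Φ i) A).card : ℝ) + ((cnt (Φ i) {x | s * x ∉ Φ i}).card : ℝ) := by
      exact_mod_cast h3
    show d _ i ≤ d A i + 1 / ((i.2 : ℝ) + 1)
    simp only [d]
    rw [div_add' _ _ _ (hc i).ne']
    refine div_le_div_of_nonneg_right ?_ (hc i).le
    linarith

namespace Mean

variable {G : Type} [Group G] (μ : Mean G)

theorem nonneg (A : Set G) : 0 ≤ μ.m A := by
  rw [← μ.empty]; exact μ.mono _ _ (Set.empty_subset _)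

theorem le_one (A : Set G) : μ.m A ≤ 1 := by
  rw [← μ.univ]; exact μ.mono _ _ (Set.subset_univ _)

theorem union_le (A B : Set G) : μ.m (A ∪ B) ≤ μ.m A + μ.m B := by
  have := μ.add A B
  have := μ.nonneg (A ∩ B)
  linarith

theorem biUnion_le {ι : Type} (S : ι → Set G) (δ : ℝ) (s : Finset ι) :
    (∀ a ∈ s, μ.m (S a) ≤ δ) → μ.m (⋃ a ∈ s, S a) ≤ s.card * δ := by
  classical
  induction s using Finset.induction_on with
  | empty => intro _; simp [μ.empty]
  | insert a s ha ih =>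
    intro h
    rw [Finset.set_biUnion_insert, Finset.card_insert_of_notMem ha]
    have h1 := μ.union_le (S a) (⋃ a ∈ s, S a)
    have h2 := h a (Finset.mem_insert_self _ _)
    have h3 := ih fun b hb => h b (Finset.mem_insert_of_mem hb)
    push_cast
    linarith

theorem bonf {ι : Type} (S : ι → Set G) (δ₀ δ : ℝ) (hδ : 0 ≤ δ) (s : Finset ι) :
    (∀ a ∈ s, δ₀ ≤ μ.m (S a)) → (∀ a ∈ s, ∀ b ∈ s, a ≠ b → μ.m (S a ∩ S b) ≤ δ) →
      s.card * δ₀ - (s.card : ℝ) ^ 2 * δ ≤ μ.m (⋃ a ∈ s, S a) := by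
  classical
  induction s using Finset.induction_on with
  | empty => intro _ _; simp [μ.empty]
  | insert a s ha ih =>
    intro h h'
    rw [Finset.set_biUnion_insert, Finset.card_insert_of_notMem ha]
    have h1 := μ.add (S a) (⋃ a ∈ s, S a)
    have h2 := h a (Finset.mem_insert_self _ _)
    have h3 := ih (fun b hb => h b (Finset.mem_insert_of_mem hb))
      (fun b hb c hc => h' b (Finset.mem_insert_of_mem hb) c (Finset.mem_insert_of_mem hc))
    have h4 : μ.m (S a ∩ ⋃ b ∈ s, S b) ≤ s.card * δ := by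
      have e : (S a ∩ ⋃ b ∈ s, S b) = ⋃ b ∈ s, (S a ∩ S b) := by
        simp only [Set.inter_iUnion]
      rw [e]
      refine μ.biUnion_le (fun b => S a ∩ S b) δ s fun b hb => ?_
      exact h' a (Finset.mem_insert_self _ _) b (Finset.mem_insert_of_mem hb)
        (fun e => ha (e ▸ hb))
    have h5 : (0 : ℝ) ≤ s.card * δ := by positivity
    push_cast
    nlinarith

end Mean

section lin

variable {k : Type} [NontriviallyNormedField k] [CompleteSpace k]

/-- a linear map with a larger kernel is dominated -/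
theorem dom {V W W' : Type} [AddCommGroup V] [Module k V] [NormedAddCommGroup W]
    [NormedSpace k W] [FiniteDimensional k W] [NormedAddCommGroup W'] [NormedSpace k W']
    (A : V →ₗ[k] W) (A' : V →ₗ[k] W') (h : LinearMap.ker A ≤ LinearMap.ker A') :
    ∃ C : ℝ, 0 < C ∧ ∀ x, ‖A' x‖ ≤ C * ‖A x‖ := by
  let D₀ : LinearMap.range A →ₗ[k] W' :=
    ((LinearMap.ker A).liftQ A' h).comp A.quotKerEquivRange.symm.toLinearMap
  obtain ⟨D, hD⟩ := LinearMap.exists_extend D₀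
  have hDA : ∀ x, D (A x) = A' x := fun x => by
    have h1 : D (A x) = D₀ ⟨A x, LinearMap.mem_range_self A x⟩ := by
      rw [← hD]; rfl
    rw [h1]
    simp only [D₀, LinearMap.comp_apply, LinearEquiv.coe_coe]
    rw [LinearMap.quotKerEquivRange_symm_apply_image]
    rfl
  obtain ⟨C, hC, hb⟩ := (LinearMap.toContinuousLinearMap D).bound
  exact ⟨C, hC, fun x => by rw [← hDA]; exact hb (A x)⟩

omit [CompleteSpace k] in
theorem exists_proj {V : Type} [AddCommGroup V] [Module k V] (U : Submodule k V) :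
    ∃ P : V →ₗ[k] V, LinearMap.ker P = U := by
  obtain ⟨U', hU'⟩ := Submodule.exists_isCompl U
  refine ⟨U'.subtype.comp (Submodule.projectionOnto U' U hU'.symm), ?_⟩
  rw [LinearMap.ker_comp, Submodule.ker_subtype, Submodule.comap_bot,
    Submodule.ker_projectionOnto]

omit [CompleteSpace k] in
theorem mulVec_bound {n : ℕ} (M : Fin n → Fin n → k) (x : Fin n → k) :
    ‖(Matrix.of M) *ᵥ x‖ ≤ n * ‖M‖ * ‖x‖ := by
  refine (pi_norm_le_iff_of_nonneg (by positivity)).2 fun i => ?_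
  simp only [Matrix.mulVec, dotProduct, Matrix.of_apply]
  refine (norm_sum_le _ _).trans ?_
  have : ∀ j ∈ (Finset.univ : Finset (Fin n)), ‖M i j * x j‖ ≤ ‖M‖ * ‖x‖ := fun j _ => by
    rw [norm_mul]
    exact mul_le_mul ((norm_le_pi_norm (M i) j).trans (norm_le_pi_norm M i))
      (norm_le_pi_norm x j) (norm_nonneg _) (norm_nonneg _)
  refine (Finset.sum_le_card_nsmul _ _ _ this).trans ?_
  simp [mul_assoc]

end lin

section main

variable {k : Type} [NontriviallyNormedField k] {G : Type} [Group G] {n : ℕ}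

/-- a linear map with prescribed kernel -/
noncomputable def pj (U : Submodule k (Fin n → k)) : (Fin n → k) →ₗ[k] (Fin n → k) :=
  (exists_proj U).choose

theorem ker_pj (U : Submodule k (Fin n → k)) : LinearMap.ker (pj U) = U :=
  (exists_proj U).choose_spec

/-- the group elements that move the base vector close to a subspace -/
def near (ρ : G →* Matrix (Fin n) (Fin n) k) (x₀ : Fin n → k) (U : Submodule k (Fin n → k))
    (ε : ℝ) : Set G :=
  {g | ‖pj U (ρ g *ᵥ x₀)‖ ≤ ε * ‖ρ g *ᵥ x₀‖}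

theorem near_mono (ρ : G →* Matrix (Fin n) (Fin n) k) (x₀ : Fin n → k)
    (U : Submodule k (Fin n → k)) {ε ε' : ℝ} (h : ε ≤ ε') : near ρ x₀ U ε ⊆ near ρ x₀ U ε' :=
  fun _ hg => le_trans hg (mul_le_mul_of_nonneg_right h (norm_nonneg _))

/-- the image of a subspace -/
def tr (ρ : G →* Matrix (Fin n) (Fin n) k) (g : G) (U : Submodule k (Fin n → k)) :
    Submodule k (Fin n → k) :=
  U.comap (Matrix.toLin' (ρ g⁻¹))

theorem mem_tr (ρ : G →* Matrix (Fin n) (Fin n) k) (g : G) (U : Submodule k (Fin n → k))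
    (x : Fin n → k) : x ∈ tr ρ g U ↔ ρ g⁻¹ *ᵥ x ∈ U := by
  simp [tr]

theorem tr_one (ρ : G →* Matrix (Fin n) (Fin n) k) (U : Submodule k (Fin n → k)) :
    tr ρ 1 U = U := by
  ext x; simp [mem_tr]

theorem tr_mul (ρ : G →* Matrix (Fin n) (Fin n) k) (g h : G) (U : Submodule k (Fin n → k)) :
    tr ρ (g * h) U = tr ρ g (tr ρ h U) := by
  ext x; simp [mem_tr, Matrix.mulVec_mulVec]

theorem tr_mono (ρ : G →* Matrix (Fin n) (Fin n) k) (g : G) {U U' : Submodule k (Fin n → k)}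
    (h : U ≤ U') : tr ρ g U ≤ tr ρ g U' :=
  Submodule.comap_mono h

variable [CompleteSpace k]

theorem near_tr (ρ : G →* Matrix (Fin n) (Fin n) k) (x₀ : Fin n → k) (h : G)
    (U : Submodule k (Fin n → k)) (ε : ℝ) (hε : 0 < ε) :
    ∃ ε' : ℝ, 0 < ε' ∧ near ρ x₀ U ε' ⊆ {g | h * g ∈ near ρ x₀ (tr ρ h U) ε} := by
  obtain ⟨C, hC, hb⟩ := dom (pj U) ((pj (tr ρ h U)).comp (Matrix.toLin' (ρ h))) (by
    intro x hx
    rw [ker_pj] at hx
    rw [LinearMap.ker_comp, ker_pj, Submodule.mem_comap, mem_tr, Matrix.toLin'_apply,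
      Matrix.mulVec_mulVec, ← map_mul, inv_mul_cancel, map_one, Matrix.one_mulVec]
    exact hx)
  obtain ⟨C', hC', hb'⟩ := dom (Matrix.toLin' (ρ h)) (LinearMap.id (R := k)) (by
    intro x hx
    rw [LinearMap.mem_ker, Matrix.toLin'_apply] at hx
    have : ρ h⁻¹ *ᵥ (ρ h *ᵥ x) = x := by
      rw [Matrix.mulVec_mulVec, ← map_mul, inv_mul_cancel, map_one, Matrix.one_mulVec]
    rw [hx, Matrix.mulVec_zero] at this
    simp [← this])
  refine ⟨ε / (C * C'), by positivity, fun g hg => ?_⟩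
  have h1 := hb (ρ g *ᵥ x₀)
  have h2 := hb' (ρ g *ᵥ x₀)
  simp only [LinearMap.comp_apply, Matrix.toLin'_apply, LinearMap.id_apply] at h1 h2
  have hg' : ‖pj U (ρ g *ᵥ x₀)‖ ≤ ε / (C * C') * ‖ρ g *ᵥ x₀‖ := hg
  show ‖pj (tr ρ h U) (ρ (h * g) *ᵥ x₀)‖ ≤ ε * ‖ρ (h * g) *ᵥ x₀‖
  rw [map_mul, ← Matrix.mulVec_mulVec]
  calc _ ≤ C * (ε / (C * C') * (C' * ‖ρ h *ᵥ (ρ g *ᵥ x₀)‖)) := by
        refine h1.trans (mul_le_mul_of_nonneg_left (hg'.trans ?_) hC.le)
        exact mul_le_mul_of_nonneg_left h2 (by positivity)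
    _ = _ := by field_simp

theorem near_inf (ρ : G →* Matrix (Fin n) (Fin n) k) (x₀ : Fin n → k)
    (U U' : Submodule k (Fin n → k)) (ε : ℝ) (hε : 0 < ε) :
    ∃ ε' : ℝ, 0 < ε' ∧ near ρ x₀ U ε' ∩ near ρ x₀ U' ε' ⊆ near ρ x₀ (U ⊓ U') ε := by
  obtain ⟨C, hC, hb⟩ := dom ((pj U).prod (pj U')) (pj (U ⊓ U')) (by
    rw [LinearMap.ker_prod, ker_pj, ker_pj, ker_pj])
  refine ⟨ε / C, by positivity, fun g hg => ?_⟩
  have h1 := hb (ρ g *ᵥ x₀)
  have h2 : ‖pj U (ρ g *ᵥ x₀)‖ ≤ ε / C * ‖ρ g *ᵥ x₀‖ := hg.1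
  have h3 : ‖pj U' (ρ g *ᵥ x₀)‖ ≤ ε / C * ‖ρ g *ᵥ x₀‖ := hg.2
  show ‖pj (U ⊓ U') (ρ g *ᵥ x₀)‖ ≤ ε * ‖ρ g *ᵥ x₀‖
  calc _ ≤ C * (ε / C * ‖ρ g *ᵥ x₀‖) := by
        refine h1.trans (mul_le_mul_of_nonneg_left ?_ hC.le)
        rw [LinearMap.prod_apply, Prod.norm_def]
        exact max_le h2 h3
    _ = _ := by field_simp

/-- null subspaces -/
def Nul (μ : Mean G) (ρ : G →* Matrix (Fin n) (Fin n) k) (x₀ : Fin n → k)
    (U : Submodule k (Fin n → k)) : Prop :=
  ∀ δ : ℝ, 0 < δ → ∃ ε : ℝ, 0 < ε ∧ μ.m (near ρ x₀ U ε) ≤ δ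

theorem nul_of_tr (μ : Mean G) (ρ : G →* Matrix (Fin n) (Fin n) k) (x₀ : Fin n → k) (h : G)
    (U : Submodule k (Fin n → k)) (hU : Nul μ ρ x₀ (tr ρ h U)) : Nul μ ρ x₀ U := by
  intro δ hδ
  obtain ⟨ε, hε, hm⟩ := hU δ hδ
  obtain ⟨ε', hε', hs⟩ := near_tr ρ x₀ h U ε hε
  exact ⟨ε', hε', (μ.mono _ _ hs).trans ((μ.inv h _).trans hm)⟩

omit [CompleteSpace k] in
theorem mv_ne (ρ : G →* Matrix (Fin n) (Fin n) k) {x₀ : Fin n → k} (hx : x₀ ≠ 0) (g : G) :
    ρ g *ᵥ x₀ ≠ 0 := by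
  intro h
  have : ρ g⁻¹ *ᵥ (ρ g *ᵥ x₀) = x₀ := by
    rw [Matrix.mulVec_mulVec, ← map_mul, inv_mul_cancel, map_one, Matrix.one_mulVec]
  rw [h, Matrix.mulVec_zero] at this
  exact hx this.symm

theorem nul_bot (μ : Mean G) (ρ : G →* Matrix (Fin n) (Fin n) k) {x₀ : Fin n → k}
    (hx : x₀ ≠ 0) : Nul μ ρ x₀ ⊥ := by
  intro δ hδ
  obtain ⟨C, hC, hb⟩ := dom (pj (⊥ : Submodule k (Fin n → k))) (LinearMap.id (R := k)) (by
    rw [ker_pj]; exact bot_le)
  refine ⟨1 / (2 * C), by positivity, ?_⟩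
  have : near ρ x₀ ⊥ (1 / (2 * C)) = ∅ := by
    refine Set.eq_empty_of_forall_notMem fun g hg => ?_
    have h1 := hb (ρ g *ᵥ x₀)
    have h2 : ‖pj ⊥ (ρ g *ᵥ x₀)‖ ≤ 1 / (2 * C) * ‖ρ g *ᵥ x₀‖ := hg
    have h3 : 0 < ‖ρ g *ᵥ x₀‖ := norm_pos_iff.2 (mv_ne ρ hx g)
    have h4 := h1.trans (mul_le_mul_of_nonneg_left h2 hC.le)
    have h5 : C * (1 / (2 * C) * ‖ρ g *ᵥ x₀‖) = ‖ρ g *ᵥ x₀‖ / 2 := by field_simp
    rw [h5, LinearMap.id_apply] at h4
    linarith
  rw [this, μ.empty]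
  exact hδ.le

theorem orbit_finite (μ : Mean G) (ρ : G →* Matrix (Fin n) (Fin n) k) (x₀ : Fin n → k)
    (U : Submodule k (Fin n → k)) (hU : ¬ Nul μ ρ x₀ U) (hmin : ∀ W < U, Nul μ ρ x₀ W) :
    (Set.range fun g => tr ρ g U).Finite := by
  classical
  by_contra hinf
  obtain ⟨δ₀, hδ₀, hbig⟩ : ∃ δ₀ : ℝ, 0 < δ₀ ∧ ∀ ε : ℝ, 0 < ε → δ₀ < μ.m (near ρ x₀ U ε) := by
    by_contra hcon
    push Not at hcon
    exact hU hcon
  have hbig' : ∀ (g : G) (ε : ℝ), 0 < ε → δ₀ ≤ μ.m (near ρ x₀ (tr ρ g U) ε) := fun g ε hε => by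
    obtain ⟨ε', hε', hs⟩ := near_tr ρ x₀ g U ε hε
    exact (hbig ε' hε').le.trans ((μ.mono _ _ hs).trans (μ.inv g _))
  have hmin' : ∀ (g : G), ∀ W < tr ρ g U, Nul μ ρ x₀ W := fun g W hW => by
    refine nul_of_tr μ ρ x₀ g⁻¹ W (hmin _ (lt_of_le_of_ne ?_ fun e => hW.ne ?_))
    · have := tr_mono ρ g⁻¹ hW.le
      rwa [← tr_mul, inv_mul_cancel, tr_one] at this
    · rw [← e, ← tr_mul, mul_inv_cancel, tr_one]
  have hpair : ∀ a ∈ Set.range fun g => tr ρ g U, ∀ b ∈ Set.range fun g => tr ρ g U, a ≠ b →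
      Nul μ ρ x₀ (a ⊓ b) := by
    rintro _ ⟨g, rfl⟩ _ ⟨h, rfl⟩ hab
    by_cases h1 : tr ρ g U ⊓ tr ρ h U = tr ρ g U
    · refine hmin' h _ (lt_of_le_of_ne inf_le_right fun e => hab ?_)
      exact h1.symm.trans e
    · exact hmin' g _ (lt_of_le_of_ne inf_le_left h1)
  obtain ⟨N, hN⟩ := exists_nat_gt (2 / δ₀)
  have hNpos : (0 : ℝ) < N := lt_trans (by positivity) hN
  obtain ⟨s, hs, hcard⟩ := Set.Infinite.exists_subset_card_eq hinf N
  have hev : ∀ a ∈ s, ∀ b ∈ s, ∀ᶠ ε in 𝓝[>] (0 : ℝ), a ≠ b →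
      μ.m (near ρ x₀ a ε ∩ near ρ x₀ b ε) ≤ 1 / (N : ℝ) ^ 2 := fun a ha b hb => by
    by_cases hab : a = b
    · exact Eventually.of_forall fun _ h => absurd hab h
    · obtain ⟨ε, hε, hm⟩ := hpair a (hs ha) b (hs hb) hab (1 / (N : ℝ) ^ 2) (by positivity)
      obtain ⟨ε', hε', hsub⟩ := near_inf ρ x₀ a b ε hε
      filter_upwards [Ioo_mem_nhdsGT hε'] with η hη _
      refine (μ.mono _ _ ?_).trans hm
      exact (Set.inter_subset_inter (near_mono ρ x₀ a hη.2.le) (near_mono ρ x₀ b hη.2.le)).trans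
        hsub
  have hev' : ∀ᶠ ε in 𝓝[>] (0 : ℝ), ∀ a ∈ s, ∀ b ∈ s, a ≠ b →
      μ.m (near ρ x₀ a ε ∩ near ρ x₀ b ε) ≤ 1 / (N : ℝ) ^ 2 :=
    (eventually_all_finset s).2 fun a ha => (eventually_all_finset s).2 fun b hb => hev a ha b hb
  obtain ⟨ε, hε, hpos⟩ := (hev'.and self_mem_nhdsWithin).exists
  have h1 := μ.bonf (fun a => near ρ x₀ a ε) δ₀ (1 / (N : ℝ) ^ 2) (by positivity) s
    (fun a ha => by
      obtain ⟨g, rfl⟩ := hs ha
      exact hbig' g ε hpos) hε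
  have h2 := h1.trans (μ.le_one _)
  rw [hcard] at h2
  have h3 : (N : ℝ) ^ 2 * (1 / (N : ℝ) ^ 2) = 1 := by field_simp
  rw [h3] at h2
  rw [div_lt_iff₀ hδ₀] at hN
  linarith

theorem nul_of_ne_top (μ : Mean G) (ρ : G →* Matrix (Fin n) (Fin n) k) (hρ : SIr ρ)
    {x₀ : Fin n → k} (hx : x₀ ≠ 0) (U : Submodule k (Fin n → k)) :
    U ≠ ⊤ → Nul μ ρ x₀ U := by
  induction U using WellFoundedLT.induction with
  | ind U ih =>
    intro hU
    by_contra hn
    have hfin := orbit_finite μ ρ x₀ U hn fun W hW => ih W hW (hW.trans_le le_top).ne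
    letI : MulAction G (Submodule k (Fin n → k)) :=
      { smul := tr ρ, one_smul := tr_one ρ, mul_smul := tr_mul ρ }
    haveI : Finite (MulAction.orbit G U) := hfin.to_subtype
    haveI : Finite (G ⧸ MulAction.stabilizer G U) :=
      Finite.of_equiv _ (MulAction.orbitEquivQuotientStabilizer G U)
    rcases hρ (MulAction.stabilizer G U) Subgroup.finiteIndex_of_finite_quotient U
      (fun g hg u hu => by
        have e : tr ρ g U = U := hg
        rw [← e, mem_tr, Matrix.mulVec_mulVec, ← map_mul, inv_mul_cancel, map_one,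
          Matrix.one_mulVec]
        exact hu) with h | h
    · exact hn (h ▸ nul_bot μ ρ hx)
    · exact hU h

end main

theorem meas : SMeas := by
  intro k _ _ G _ hG n ρ hρ
  rcases Nat.eq_zero_or_pos n with rfl | hn
  · exact ⟨1, one_pos, fun g i => i.elim0⟩
  obtain ⟨μ⟩ := exists_mean G hG
  let x₀ : Fin n → k := fun _ => 1
  have hx : x₀ ≠ 0 := fun h => one_ne_zero (congrFun h ⟨0, hn⟩)
  by_contra hcon
  push Not at hcon
  have hpos : ∀ j : ℕ, (0 : ℝ) < 1 / ((j : ℝ) + 1) := fun j => by positivity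
  choose g i₁ i₂ hg using fun j : ℕ => hcon _ (hpos j)
  obtain ⟨c, hc⟩ := NormedField.exists_one_lt_norm k
  let R : G → Fin n → Fin n → k := fun h i j => ρ h i j
  have hR : ∀ h, R h ≠ 0 := fun h e => by
    refine mv_ne ρ hx h ?_
    have : ρ h = 0 := by ext i j; exact congrFun (congrFun e i) j
    rw [this, Matrix.zero_mulVec]
  choose a ha hlt hge _ using fun j => rescale_to_shell hc one_pos (hR (g j))
  let B : ℕ → Fin n → Fin n → k := fun j => a j • R (g j)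
  have hK : IsCompact (Metric.closedBall (0 : Fin n → Fin n → k) 1 ∩ {M | 1 / ‖c‖ ≤ ‖M‖}) :=
    (isCompact_closedBall _ _).inter_right (isClosed_le continuous_const continuous_norm)
  obtain ⟨B₀, hB₀, φ, hφ, hlim⟩ := hK.tendsto_subseq (x := B)
    (fun j => ⟨mem_closedBall_zero_iff.2 (hlt j).le, hge j⟩)
  have hof : ∀ j, Matrix.of (B j) = a j • ρ (g j) := fun j => rfl
  have hdet : (Matrix.of B₀).det = 0 := by
    have h1 : Tendsto (fun j => ‖(Matrix.of (B (φ j))).det‖) atTop (𝓝 ‖(Matrix.of B₀).det‖) := by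
      have hcont : Continuous fun M : Fin n → Fin n → k => (Matrix.of M).det :=
        Continuous.matrix_det (continuous_pi fun i => continuous_pi fun j =>
          (continuous_apply j).comp (continuous_apply i))
      exact ((hcont.tendsto _).comp hlim).norm
    have h2 : Tendsto (fun j => 1 / ((φ j : ℝ) + 1)) atTop (𝓝 0) :=
      tendsto_one_div_add_atTop_nhds_zero_nat.comp hφ.tendsto_atTop
    have h3 := le_of_tendsto_of_tendsto' h1 h2 fun j => by
      rw [hof, Matrix.det_smul, Fintype.card_fin, norm_mul, norm_pow]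
      have h4 : ‖a (φ j)‖ * ‖ρ (g (φ j)) (i₁ (φ j)) (i₂ (φ j))‖ ≤ 1 := by
        rw [← norm_mul]
        exact ((norm_le_pi_norm (B (φ j) (i₁ (φ j))) (i₂ (φ j))).trans
          (norm_le_pi_norm (B (φ j)) (i₁ (φ j)))).trans (hlt _).le
      have h5 : (‖a (φ j)‖ * ‖ρ (g (φ j)) (i₁ (φ j)) (i₂ (φ j))‖) ^ n ≤ 1 :=
        pow_le_one₀ (by positivity) h4
      calc _ ≤ ‖a (φ j)‖ ^ n * (1 / ((φ j : ℝ) + 1) * ‖ρ (g (φ j)) (i₁ (φ j)) (i₂ (φ j))‖ ^ n) :=
            mul_le_mul_of_nonneg_left (hg _).le (by positivity)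
        _ = 1 / ((φ j : ℝ) + 1) * (‖a (φ j)‖ * ‖ρ (g (φ j)) (i₁ (φ j)) (i₂ (φ j))‖) ^ n := by
            rw [mul_pow]; ring
        _ ≤ 1 / ((φ j : ℝ) + 1) * 1 := mul_le_mul_of_nonneg_left h5 (hpos _).le
        _ = _ := mul_one _
    exact norm_le_zero_iff.1 h3
  let T : (Fin n → k) →ₗ[k] (Fin n → k) := Matrix.toLin' (Matrix.of B₀)
  have hker : LinearMap.ker T ≠ ⊤ := fun e => by
    have h1 : Matrix.of B₀ = 0 := by
      rw [LinearMap.ker_eq_top] at e
      exact (Matrix.toLin' (R := k)).map_eq_zero_iff.1 e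
    have h2 : B₀ = 0 := by ext i j; exact congrFun (congrFun h1 i) j
    have h3 : 1 / ‖c‖ ≤ ‖B₀‖ := hB₀.2
    rw [h2, norm_zero] at h3
    have : 0 < 1 / ‖c‖ := by positivity
    linarith
  have hran : LinearMap.range T ≠ ⊤ := fun e => by
    have h1 : Function.Injective T :=
      LinearMap.injective_iff_surjective.2 (LinearMap.range_eq_top.1 e)
    obtain ⟨v, hv, hv0⟩ := Matrix.exists_mulVec_eq_zero_iff.2 hdet
    exact hv (h1 (by simp only [T, Matrix.toLin'_apply, hv0, map_zero]))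
  obtain ⟨ε₁, hε₁, hm₁⟩ := nul_of_ne_top μ ρ hρ hx _ hker (1 / 3) (by norm_num)
  obtain ⟨ε₂, hε₂, hm₂⟩ := nul_of_ne_top μ ρ hρ hx _ hran (1 / 3) (by norm_num)
  obtain ⟨C, hC, hb⟩ := dom T (pj (LinearMap.ker T)) (by rw [ker_pj])
  obtain ⟨C', hC', hb'⟩ := dom (LinearMap.id (R := k)) (pj (LinearMap.range T)) (by
    rw [LinearMap.ker_id]; exact bot_le)
  have hnpos : (0 : ℝ) < n := by exact_mod_cast hn
  let η : ℝ := ε₂ * ε₁ / (C * (C' + ε₂))
  have hη : 0 < η := by positivity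
  obtain ⟨j, hj⟩ : ∃ j, ‖B (φ j) - B₀‖ < η / n := by
    have := (Metric.tendsto_atTop.1 hlim) (η / n) (by positivity)
    obtain ⟨j, hj⟩ := this
    exact ⟨j, by simpa [dist_eq_norm] using hj j le_rfl⟩
  have hcover : (Set.univ : Set G) ⊆ near ρ x₀ (LinearMap.ker T) ε₁ ∪
      {h | g (φ j) * h ∈ near ρ x₀ (LinearMap.range T) ε₂} := by
    intro h _
    by_cases h1 : h ∈ near ρ x₀ (LinearMap.ker T) ε₁
    · exact Or.inl h1
    refine Or.inr ?_
    have h1' : ε₁ * ‖ρ h *ᵥ x₀‖ < ‖pj (LinearMap.ker T) (ρ h *ᵥ x₀)‖ := not_le.1 h1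
    show ‖pj (LinearMap.range T) (ρ (g (φ j) * h) *ᵥ x₀)‖ ≤ ε₂ * ‖ρ (g (φ j) * h) *ᵥ x₀‖
    rw [map_mul, ← Matrix.mulVec_mulVec]
    set x := ρ h *ᵥ x₀ with hxdef
    set y := ρ (g (φ j)) *ᵥ x with hydef
    set e := Matrix.of (B (φ j) - B₀) *ᵥ x with hedef
    have h2 : a (φ j) • y = T x + e := by
      have : Matrix.of (B (φ j) - B₀) = a (φ j) • ρ (g (φ j)) - Matrix.of B₀ := rfl
      rw [hedef, this, Matrix.sub_mulVec, Matrix.smul_mulVec]
      simp only [T, Matrix.toLin'_apply, hydef]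
      abel
    have h3 : ‖e‖ ≤ η * ‖x‖ := by
      refine (mulVec_bound _ _).trans (mul_le_mul_of_nonneg_right ?_ (norm_nonneg _))
      rw [lt_div_iff₀ hnpos] at hj
      linarith
    have h4 : ε₁ * ‖x‖ ≤ C * ‖T x‖ := h1'.le.trans (hb x)
    have h5 : pj (LinearMap.range T) (T x) = 0 := by
      rw [← LinearMap.mem_ker, ker_pj]; exact LinearMap.mem_range_self _ _
    have h6 : ‖pj (LinearMap.range T) (a (φ j) • y)‖ ≤ C' * (η * ‖x‖) := by
      rw [h2, map_add, h5, zero_add]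
      exact (hb' e).trans (mul_le_mul_of_nonneg_left h3 hC'.le)
    have h7 : ‖T x‖ ≤ ‖a (φ j) • y‖ + η * ‖x‖ := by
      have : T x = a (φ j) • y - e := by rw [h2]; abel
      rw [this]
      exact (norm_sub_le _ _).trans (by linarith)
    have h8 : (C' + ε₂) * (η * ‖x‖) ≤ ε₂ * ‖T x‖ := by
      have : (C' + ε₂) * (η * ‖x‖) = ε₂ * (ε₁ * ‖x‖) / C := by
        simp only [η]; field_simp
      rw [this, div_le_iff₀ hC]
      nlinarith [mul_le_mul_of_nonneg_left h4 hε₂.le]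
    have h9 : ‖pj (LinearMap.range T) (a (φ j) • y)‖ ≤ ε₂ * ‖a (φ j) • y‖ := by
      nlinarith [mul_le_mul_of_nonneg_left h7 hε₂.le]
    rw [map_smul, norm_smul, norm_smul] at h9
    have ha' : 0 < ‖a (φ j)‖ := norm_pos_iff.2 (ha _)
    refine le_of_mul_le_mul_left ?_ ha'
    linarith
  have h1 := (μ.mono _ _ hcover).trans (μ.union_le _ _)
  have h2 := μ.inv (g (φ j)) (near ρ x₀ (LinearMap.range T) ε₂)
  rw [μ.univ] at h1
  linarith

end Pool.Agent.MP_6a4325_al.H29
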